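import Pool.Agent.Helper72.LSr.S6a

/-!
# LR-M2: `ml_a`, `ml_num`
-/

namespace Pool.Agent.Helper97.LSr

open Finset
open scoped Classical
open Pool.Agent.Helper72.LSr

variable {V : Type} {j : ℕ} {G : SimpleGraph V} {S : Finset V} {k A B : ℕ} {w : V}

theorem NH_subset (G : SimpleGraph V) (S : Finset V) (w : V) : NH G S w ⊆ S :=
  filter_subset _ _

theorem ml_a (h : ML V j G S k A B w) {y y' : V} (hy : y ∈ NH G S w) (hy' : y' ∈ NH G S w)
    (hadj : G.Adj y y') :
    Dv k (A + 1) B G S w * (aa k A B j G S w (Qs G S w y ∪ Qs G S w y')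
        + (- Phi k (A + 1) B (j + 2) G S) + Phi k A B (j + 2) G (nb G S w)
        + Phi k A B (j + 1) G (nb G S w))
      ≤ es k A B (j + 1) * Yv k (A + 1) B G S w *
        (Dv k (A + 1) B G S w - Yv k (A + 1) B G S w - rS k (A + 1) B G S
          - K G (NH G S w) 2) := by
  obtain ⟨f, hf, hlast⟩ := exists_order_last (NH G S w) y' hy'
  have h1 := id_one' h.hw k A B j f hf
  have hQ : Qf G (NH G S w) f y' = nb G (NH G S w) y' := by
    ext x
    unfold Qf
    rw [mem_filter, mem_nb]
    constructor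
    · rintro ⟨h1, h2, h3⟩
      exact ⟨h1, h2⟩
    · rintro ⟨h1, h2⟩
      exact ⟨h1, h2, hlast x h1 (fun hx => by rw [hx] at h2; exact G.loopless.irrefl _ h2)⟩
  have h2 := con_split G S h.hw k A B j hy hy' hadj.symm
  have hS := NH_subset G S w
  have hnn : ∀ u ∈ NH G S w, 0 ≤ Dv k (A + 1) B G S w *
        con k A B j G S u (Qf G (NH G S w) f u)
      + es k A B (j + 1) * (Yv k (A + 1) B G S w * Dv k (A + 1) B G S u
        - Dv k (A + 1) B G S w * Yv k (A + 1) B G S u) := by
    intro u hu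
    refine ml_con h (hS hu) ?_
    intro x hx
    unfold Qf at hx
    rw [mem_filter] at hx
    rw [mem_nb]
    exact ⟨hS hx.1, hx.2.1⟩
  have h3 := single_le_sum hnn hy'
  rw [sum_add_distrib, ← mul_sum, ← mul_sum, hQ, h2] at h3
  have h4 := ml_con h (u := y') (R := (nb G (NH G S w) y').erase y) (hS hy') (by
    intro x hx
    rw [mem_erase, mem_nb] at hx
    rw [mem_nb]
    exact ⟨hS hx.2.1, hx.2.2⟩)
  have h5 : ∑ u ∈ NH G S w, con k A B j G S u (Qf G (NH G S w) f u)
      = ∑ u ∈ NH G S w, con k A B j G S u (Qf G (NH G S w) f u) := rfl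
  nlinarith [h1, h3, h4]

theorem exists_edge (G : SimpleGraph V) (S : Finset V) (h : 1 ≤ K G S 2) :
    ∃ y ∈ S, ∃ y' ∈ S, G.Adj y y' := by
  unfold K at h
  have h1 : 0 < ((S.powersetCard 2).filter (fun t : Finset V => G.IsClique (t : Set V))).card := by
    omega
  obtain ⟨t, ht⟩ := card_pos.1 h1
  rw [mem_filter, mem_powersetCard] at ht
  obtain ⟨⟨hsub, hc⟩, hcl⟩ := ht
  obtain ⟨x, y, hxy, rfl⟩ := card_eq_two.1 hc
  refine ⟨x, hsub (by simp), y, hsub (by simp), ?_⟩
  exact hcl (by simp) (by simp) hxy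

theorem ml_num (h : ML V j G S k A B w) (hm : 1 ≤ K G (NH G S w) 2) :
    NumH k (MS k (A + 1) B S) (Dv k (A + 1) B G S w - MS k (A + 1) B S)
      (Dv k (A + 1) B G S w) (Yv k (A + 1) B G S w) (rS k (A + 1) B G S)
      (K G (NH G S w) 2) := by
  obtain ⟨y, hy, y', hy', hadj⟩ := exists_edge G _ hm
  have h4 := id_E4 G S h.hw k (A + 1) B
  have h5 := card_Q_union G S h.hw k (A + 1) B hy hy' hadj
  have h6 : ((Qs G S w y ∪ Qs G S w y').card : ℤ) ≤ (Qs G S w y).card + (Qs G S w y').card := by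
    exact_mod_cast card_union_le _ _
  have hne : y ≠ y' := hadj.ne
  have h7 : ((Qs G S w y).card : ℤ) + (Qs G S w y').card
      ≤ ∑ y ∈ NH G S w, ((Qs G S w y).card : ℤ) := by
    have : ∑ z ∈ ({y, y'} : Finset V), ((Qs G S w z).card : ℤ)
        ≤ ∑ y ∈ NH G S w, ((Qs G S w y).card : ℤ) := by
      apply sum_le_sum_of_subset_of_nonneg
      · intro z hz
        rw [mem_insert, mem_singleton] at hz
        rcases hz with rfl | rfl
        · exact hy
        · exact hy'
      · intro z _ _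
        positivity
    rwa [sum_pair hne] at this
  have hS := NH_subset G S w
  have h8 := h.hc y (hS hy) y' (hS hy') hadj
  have h9 : (0 : ℤ) ≤ ((nb G (NH G S w) y ∩ nb G (NH G S w) y').card : ℤ) := by positivity
  have hX := h.hX
  refine
    { hk := by exact_mod_cast h.hk
      hD := by ring
      hX := by linarith
      hY := h.hY
      hε := h.hE w h.hw
      hcase := h.hcase
      hm := hm
      hZ := (ml_main h).2.2
      hJ := by linarith }

end Pool.Agent.Helper97.LSr
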